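import Pool.Agent.X261.ZD.Base

set_option autoImplicit false

namespace Pool.Agent.X261.ZH

open Polynomial Filter Topology Height

section
variable {K : Type*} [Field K] [AdmissibleAbsValues K]

/-- heights of values of a polynomial -/
lemma mv_bound {τ : Type*} [Fintype τ] (g : MvPolynomial τ K) : ∃ C : ℝ, 0 ≤ C ∧ ∀ x : τ → K,
    logHeight₁ (MvPolynomial.eval x g) ≤ C * (1 + ∑ i, logHeight₁ (x i)) := by
  have hS : ∀ x : τ → K, 0 ≤ ∑ i, logHeight₁ (x i) := fun x =>
    Finset.sum_nonneg fun i _ => zero_le_logHeight₁ _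
  have hw : 0 ≤ (totalWeight K : ℝ) * Real.log 2 :=
    mul_nonneg (Nat.cast_nonneg _) (Real.log_nonneg (by norm_num))
  induction g using MvPolynomial.induction_on with
  | C a =>
    refine ⟨logHeight₁ a, zero_le_logHeight₁ _, fun x => ?_⟩
    rw [MvPolynomial.eval_C]
    have h1 := hS x
    have h2 := zero_le_logHeight₁ a
    nlinarith
  | add p q hp hq =>
    obtain ⟨C1, h1, h1'⟩ := hp
    obtain ⟨C2, h2, h2'⟩ := hq
    refine ⟨totalWeight K * Real.log 2 + C1 + C2, by positivity, fun x => ?_⟩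
    rw [map_add]
    refine (logHeight₁_add_le _ _).trans ?_
    have h3 := hS x
    have h4 := h1' x
    have h5 := h2' x
    nlinarith
  | mul_X p i hp =>
    obtain ⟨C1, h1, h1'⟩ := hp
    refine ⟨C1 + 1, by positivity, fun x => ?_⟩
    rw [map_mul, MvPolynomial.eval_X]
    refine (logHeight₁_mul_le _ _).trans ?_
    have h3 := hS x
    have h4 := h1' x
    have h5 : logHeight₁ (x i) ≤ ∑ i, logHeight₁ (x i) :=
      Finset.single_le_sum (f := fun i => logHeight₁ (x i))
        (fun i _ => zero_le_logHeight₁ _) (Finset.mem_univ i)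
    nlinarith

/-- the height of a tuple is at most the sum of the heights of the entries -/
lemma tuple_le {m : ℕ} (g : Fin m → K) : logHeight g ≤ ∑ k, logHeight₁ (g k) := by
  have h1 := logHeight_fun_prod_eq (K := K) (α := Fin m) (ι := fun _ => Fin 2)
    (x := fun a => ![g a, 1]) (fun a h0 => by
      have := congrFun h0 1
      simp at this)
  have h2 := logHeight_comp_le (K := K) (fun (k : Fin m) (a : Fin m) => if a = k then (0 : Fin 2) else 1)
    (fun I : (a : Fin m) → Fin 2 => ∏ a, (![g a, 1] : Fin 2 → K) (I a))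
  rw [h1] at h2
  have h3 : ((fun I : (a : Fin m) → Fin 2 => ∏ a, (![g a, 1] : Fin 2 → K) (I a)) ∘
      fun (k : Fin m) (a : Fin m) => if a = k then (0 : Fin 2) else 1) = g := by
    funext k
    show ∏ a, (![g a, 1] : Fin 2 → K) (if a = k then (0 : Fin 2) else 1) = g k
    rw [Finset.prod_eq_single k]
    · simp
    · intro a _ hak
      rw [if_neg hak]
      simp
    · simp
  rw [h3] at h2
  refine h2.trans (le_of_eq ?_)
  refine Finset.sum_congr rfl fun k _ => ?_
  rw [logHeight₁_eq_logHeight]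

/-- the height of the tuple of powers -/
lemma pow_le (D : ℕ) : ∃ C : ℝ, ∀ x : K,
    logHeight (fun l : Fin (D + 1) => x ^ l.1) ≤ C + D * logHeight₁ x := by
  obtain ⟨C, hC⟩ := logHeight_eval_le' (K := K) (ι := Fin 2) (ι' := Fin (D + 1)) (N := D)
    (p := fun l => MvPolynomial.X 0 ^ l.1 * MvPolynomial.X 1 ^ (D - l.1)) (by
    intro l
    have h1 : D = l.1 + (D - l.1) := by omega
    conv_rhs => rw [h1]
    have h2 := (MvPolynomial.isHomogeneous_X K (0 : Fin 2)).pow l.1
    have h3 := (MvPolynomial.isHomogeneous_X K (1 : Fin 2)).pow (D - l.1)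
    simpa using h2.mul h3)
  refine ⟨C, fun x => ?_⟩
  have h := hC ![x, 1]
  rw [← logHeight₁_eq_logHeight] at h
  simpa using h

/-- the height of a root -/
lemma root_le (D : ℕ) : ∃ C : ℝ, 0 ≤ C ∧ ∀ (g : ℕ → K) (x : K), g (D + 1) ≠ 0 →
    ∑ k ∈ Finset.range (D + 2), g k * x ^ k = 0 →
    logHeight₁ x ≤ C + ∑ k : Fin (D + 2), logHeight₁ (g k) := by
  classical
  obtain ⟨C1, hC1⟩ := pow_le (K := K) D
  obtain ⟨A, hA⟩ : ∃ A : Fin 2 × (Fin (D + 2) × Fin (D + 1)) → K, A = fun a : Fin 2 × (Fin (D + 2) × Fin (D + 1)) =>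
    if a.1 = 0 then (if a.2.1.1 = a.2.2.1 then -1 else 0) else
      (if a.2.1.1 = D + 1 ∧ a.2.2.1 = 0 then 1 else 0) := ⟨_, rfl⟩
  obtain ⟨C2, hC2⟩ : ∃ C2 : ℝ, C2 = totalWeight K *
    Real.log (Nat.card (Fin (D + 2) × Fin (D + 1))) + logHeight A := ⟨_, rfl⟩
  refine ⟨|C1 + C2|, abs_nonneg _, fun g x hg hx => ?_⟩
  have hv0 : (fun l : Fin (D + 1) => x ^ l.1) ≠ 0 := by
    intro h0
    have := congrFun h0 0
    simp at this
  have hg0 : (fun k : Fin (D + 2) => g k.1) ≠ 0 := by
    intro h0
    have := congrFun h0 (Fin.last (D + 1))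
    simp at this
    exact hg this
  have h1 := logHeight_fun_mul_eq (K := K) hg0 hv0
  have h2 := logHeight_linearMap_apply_le (K := K) A
    (fun a : Fin (D + 2) × Fin (D + 1) => g a.1.1 * x ^ a.2.1)
  rw [h1, ← hC2] at h2
  have h3 : (fun j : Fin 2 => ∑ i : Fin (D + 2) × Fin (D + 1), A (j, i) * (g i.1.1 * x ^ i.2.1)) =
      g (D + 1) • ![x ^ (D + 1), 1] := by
    funext j
    rw [Fintype.sum_prod_type_right]
    fin_cases j
    · simp only [hA, Fin.zero_eta, if_true, ite_mul, neg_mul, one_mul, zero_mul, Pi.smul_apply,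
        smul_eq_mul, Matrix.cons_val_zero]
      rw [Finset.sum_range_succ, Finset.sum_range] at hx
      rw [eq_neg_of_add_eq_zero_right hx, ← Finset.sum_neg_distrib]
      refine Finset.sum_congr rfl fun l _ => ?_
      rw [Finset.sum_eq_single (l.castSucc)]
      · simp
      · intro k _ hk
        rw [if_neg]
        intro h
        exact hk (Fin.ext (by simpa using h))
      · simp
    · simp only [hA, Fin.mk_one, one_ne_zero, if_false, ite_mul, one_mul, zero_mul, Pi.smul_apply,
        smul_eq_mul, Matrix.cons_val_one]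
      rw [Finset.sum_eq_single (0 : Fin (D + 1))]
      · rw [Finset.sum_eq_single (Fin.last (D + 1))]
        · simp
        · intro k _ hk
          rw [if_neg]
          rintro ⟨h, -⟩
          exact hk (Fin.ext (by simpa using h))
        · simp
      · intro l _ hl
        refine Finset.sum_eq_zero fun k _ => ?_
        rw [if_neg]
        rintro ⟨-, h⟩
        exact hl (Fin.ext (by simpa using h))
      · simp
  rw [h3, logHeight_smul_eq_logHeight _ hg, ← logHeight₁_eq_logHeight, logHeight₁_pow] at h2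
  have h4 := hC1 x
  have h5 := tuple_le (K := K) (fun k : Fin (D + 2) => g k.1)
  have h6 := le_abs_self (C1 + C2)
  push_cast at h2
  nlinarith

end

end Pool.Agent.X261.ZH

namespace Pool.Agent.X261.ZH

open Polynomial Filter Topology Height

section
variable {K : Type*} [Field K]

lemma bez_aux {d : ℕ} (hd : 1 ≤ d) {p q : K[X]} (hc : IsCoprime p q) (hp : p.natDegree = d)
    (hq : q.natDegree ≤ d) : ∃ (M : ℕ) (a b a' b' : K[X]), a.natDegree ≤ M ∧ b.natDegree ≤ M ∧
      a'.natDegree ≤ M ∧ b'.natDegree ≤ M ∧ a * p + b * q = 1 ∧ a' * p + b' * q = X ^ (M + d) := by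
  obtain ⟨a, b, hab⟩ := hc
  obtain ⟨M, hM⟩ : ∃ M, M = max d (max a.natDegree b.natDegree) := ⟨_, rfl⟩
  have hMd : d ≤ M := hM ▸ le_max_left _ _
  have hMa : a.natDegree ≤ M := hM ▸ (le_max_left _ _).trans (le_max_right _ _)
  have hMb : b.natDegree ≤ M := hM ▸ (le_max_right _ _).trans (le_max_right _ _)
  have hp0 : p ≠ 0 := by
    rintro rfl
    rw [natDegree_zero] at hp
    omega
  obtain ⟨r, hr⟩ : ∃ r, r = (b * X ^ (M + d)) % p := ⟨_, rfl⟩
  obtain ⟨c, hcc⟩ : ∃ c, c = (b * X ^ (M + d)) / p := ⟨_, rfl⟩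
  have h1 : p * c + r = b * X ^ (M + d) := by
    rw [hr, hcc]
    exact EuclideanDomain.div_add_mod _ _
  have hrd : r.natDegree < d := by
    rw [hr, ← hp]
    exact natDegree_mod_lt _ (by omega)
  have h2 : (a * X ^ (M + d) + c * q) * p + r * q = X ^ (M + d) := by
    have : (a * X ^ (M + d) + c * q) * p + r * q =
        a * p * X ^ (M + d) + (p * c + r) * q := by ring
    rw [this, h1]
    calc a * p * X ^ (M + d) + b * X ^ (M + d) * q = (a * p + b * q) * X ^ (M + d) := by ring
      _ = X ^ (M + d) := by rw [hab, one_mul]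
  refine ⟨M, a, b, a * X ^ (M + d) + c * q, r, hMa, hMb, ?_, by omega, hab, h2⟩
  obtain ⟨A, hA⟩ : ∃ A, A = a * X ^ (M + d) + c * q := ⟨_, rfl⟩
  rw [← hA] at h2 ⊢
  by_cases hA0 : A = 0
  · rw [hA0, natDegree_zero]
    omega
  · have h3 : A * p = X ^ (M + d) - r * q := eq_sub_of_add_eq h2
    have h4 : (A * p).natDegree ≤ M + d := by
      rw [h3]
      refine (natDegree_sub_le _ _).trans (max_le ?_ ?_)
      · rw [natDegree_X_pow]
      · exact natDegree_mul_le.trans (by omega)
    rw [natDegree_mul hA0 hp0, hp] at h4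
    omega

lemma bez {d : ℕ} (hd : 1 ≤ d) {p q : K[X]} (hc : IsCoprime p q)
    (h : max p.natDegree q.natDegree = d) : ∃ (M : ℕ) (a b a' b' : K[X]), a.natDegree ≤ M ∧
      b.natDegree ≤ M ∧ a'.natDegree ≤ M ∧ b'.natDegree ≤ M ∧ a * p + b * q = 1 ∧
      a' * p + b' * q = X ^ (M + d) := by
  rcases le_total p.natDegree q.natDegree with h1 | h1
  · rw [max_eq_right h1] at h
    obtain ⟨M, a, b, a', b', h2, h3, h4, h5, h6, h7⟩ := bez_aux hd hc.symm h (by omega)
    exact ⟨M, b, a, b', a', h3, h2, h5, h4, by rw [← h6]; ring, by rw [← h7]; ring⟩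
  · rw [max_eq_left h1] at h
    exact bez_aux hd hc h (by omega)

/-- homogenization -/
noncomputable def hg (M : ℕ) (a : K[X]) : MvPolynomial (Fin 2) K :=
  ∑ i ∈ Finset.range (M + 1), MvPolynomial.C (a.coeff i) * (MvPolynomial.X 0 ^ i *
    MvPolynomial.X 1 ^ (M - i))

lemma hg_hom (M : ℕ) (a : K[X]) : (hg M a).IsHomogeneous M := by
  refine MvPolynomial.IsHomogeneous.sum _ _ _ fun i hi => ?_
  have hi' : i ≤ M := Nat.lt_succ_iff.1 (Finset.mem_range.1 hi)
  have h2 := (MvPolynomial.isHomogeneous_X K (0 : Fin 2)).pow i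
  have h3 := (MvPolynomial.isHomogeneous_X K (1 : Fin 2)).pow (M - i)
  have h4 := (MvPolynomial.isHomogeneous_C (Fin 2) (a.coeff i)).mul (h2.mul h3)
  have h5 : 0 + (1 * i + 1 * (M - i)) = M := by omega
  rwa [h5] at h4

lemma hg_eval (M : ℕ) (a : K[X]) (ha : a.natDegree ≤ M) (x : K) :
    MvPolynomial.eval ![x, 1] (hg M a) = a.eval x := by
  unfold hg
  rw [map_sum, eval_eq_sum_range' (Nat.lt_succ_of_le ha)]
  refine Finset.sum_congr rfl fun i _ => ?_
  simp

variable [AdmissibleAbsValues K]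

/-- heights under a rational map of degree `d` -/
lemma rat_height {d : ℕ} (hd : 1 ≤ d) {p q : K[X]} (hc : IsCoprime p q)
    (h : max p.natDegree q.natDegree = d) : ∃ C : ℝ, 0 ≤ C ∧ ∀ x : K,
      |logHeight₁ (p.eval x / q.eval x) - d * logHeight₁ x| ≤ C := by
  have hp : p.natDegree ≤ d := h ▸ le_max_left _ _
  have hq : q.natDegree ≤ d := h ▸ le_max_right _ _
  obtain ⟨M, a, b, a', b', h2, h3, h4, h5, h6, h7⟩ := bez hd hc h
  obtain ⟨C1, hC1⟩ := logHeight_eval_ge' (K := K) (ι := Fin 2) (ι' := Fin 2) (M := M) (N := d)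
    (q := fun k => hg M (if k.1 = 0 then (if k.2 = 0 then a' else b') else
      (if k.2 = 0 then a else b))) (fun k => hg_hom _ _)
  obtain ⟨C2, hC2⟩ := logHeight_eval_le' (K := K) (ι := Fin 2) (ι' := Fin 2) (N := d)
    (p := fun k => hg d (if k = 0 then p else q)) (fun k => hg_hom _ _)
  refine ⟨|C1| + |C2|, by positivity, fun x => ?_⟩
  have e0 : logHeight₁ (p.eval x / q.eval x) = logHeight ![p.eval x, q.eval x] :=
    logHeight₁_div_eq_logHeight _ _
  have e1 := hC1 (fun j => MvPolynomial.C ((![p.eval x, q.eval x] : Fin 2 → K) j)) (x := ![x, 1])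
    (by
      intro k
      rw [Fin.sum_univ_two]
      fin_cases k
      · have := congrArg (eval x) h7
        simp only [eval_add, eval_mul, eval_pow, eval_X] at this
        simp [hg_eval M a' h4, hg_eval M b' h5, this]
      · have := congrArg (eval x) h6
        simp only [eval_add, eval_mul, eval_one] at this
        simp [hg_eval M a h2, hg_eval M b h3, this])
  have e2 := hC2 ![x, 1]
  have e3 : (fun j => MvPolynomial.eval ![x, 1]
      (MvPolynomial.C ((![p.eval x, q.eval x] : Fin 2 → K) j))) = ![p.eval x, q.eval x] := by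
    funext j
    rw [MvPolynomial.eval_C]
  have e4 : (fun j : Fin 2 => MvPolynomial.eval ![x, 1] (hg d (if j = 0 then p else q))) =
      ![p.eval x, q.eval x] := by
    funext j
    fin_cases j
    · simp [hg_eval d p hp]
    · simp [hg_eval d q hq]
  rw [e3, ← e0, ← logHeight₁_eq_logHeight] at e1
  rw [e4, ← e0, ← logHeight₁_eq_logHeight] at e2
  have n1 := neg_abs_le C1
  have n2 := le_abs_self C2
  have n3 := abs_nonneg C1
  have n4 := abs_nonneg C2
  rw [abs_le]
  constructor <;> linarith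

/-- growth of the heights in the orbit of a point of large height -/
lemma orbit_height {d : ℕ} (hd : 2 ≤ d) {p q : K[X]} (hc : IsCoprime p q)
    (h : max p.natDegree q.natDegree = d) : ∃ B : ℝ, ∀ α : K, B < logHeight₁ α →
      (∀ n, q.eval ((fun x => p.eval x / q.eval x)^[n] α) ≠ 0) ∧
      (∀ n, B < logHeight₁ ((fun x => p.eval x / q.eval x)^[n] α)) ∧
      (StrictMono fun n => logHeight₁ ((fun x => p.eval x / q.eval x)^[n] α)) ∧
      ∃ G : ℝ, 0 < G ∧ Tendsto (fun n =>
        logHeight₁ ((fun x => p.eval x / q.eval x)^[n] α) / (d : ℝ) ^ n) atTop (𝓝 G) := by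
  obtain ⟨C, hC, hx⟩ := rat_height (by omega) hc h
  refine ⟨C, fun α hα => ?_⟩
  set f : K → K := fun x => p.eval x / q.eval x with hf
  have hd' : (2 : ℝ) ≤ d := by exact_mod_cast hd
  have key : ∀ n, C < logHeight₁ (f^[n] α) := by
    intro n
    induction n with
    | zero => exact hα
    | succ n ih =>
      rw [Function.iterate_succ_apply']
      have h1 := (abs_le.1 (hx (f^[n] α))).1
      show C < logHeight₁ (p.eval (f^[n] α) / q.eval (f^[n] α))
      nlinarith
  refine ⟨fun n h0 => ?_, key, strictMono_nat_of_lt_succ fun n => ?_, ?_⟩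
  · have h1 := key (n + 1)
    rw [Function.iterate_succ_apply'] at h1
    have h2 : f (f^[n] α) = 0 := by
      show p.eval (f^[n] α) / q.eval (f^[n] α) = 0
      rw [h0, div_zero]
    rw [h2, logHeight₁_zero] at h1
    linarith
  · have h1 := (abs_le.1 (hx (f^[n] α))).1
    have h2 := key n
    rw [Function.iterate_succ_apply']
    show logHeight₁ (f^[n] α) < logHeight₁ (p.eval (f^[n] α) / q.eval (f^[n] α))
    nlinarith
  · exact Pool.Agent.X261.ZD.rate hd hC (fun n => logHeight₁ (f^[n] α)) (fun n => by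
      show |logHeight₁ (f^[n + 1] α) - d * logHeight₁ (f^[n] α)| ≤ C
      rw [Function.iterate_succ_apply']
      exact hx _) (key 0)

/-- sequences with different growth of the heights are not on a hypersurface -/
lemma eventually_ne : ∀ (N : ℕ) (e : Fin N → ℕ), (∀ i, 2 ≤ e i) → StrictAnti e →
    ∀ (G : Fin N → ℝ), (∀ i, 0 < G i) → ∀ (x : ℕ → Fin N → K),
    (∀ i, Tendsto (fun n => logHeight₁ (x n i) / (e i : ℝ) ^ n) atTop (𝓝 (G i))) →
    ∀ F : MvPolynomial (Fin N) K, F ≠ 0 → ∀ᶠ n in atTop, MvPolynomial.eval (x n) F ≠ 0 := by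
  intro N
  induction N with
  | zero =>
    intro e _ _ G _ x _ F hF
    refine Eventually.of_forall fun n h0 => hF ?_
    rw [MvPolynomial.eq_C_of_isEmpty F, MvPolynomial.eval_C] at h0
    rw [MvPolynomial.eq_C_of_isEmpty F, h0, map_zero]
  | succ N ih =>
    intro e he hanti G hG x hx F hF
    obtain ⟨f, hf⟩ : ∃ f, f = MvPolynomial.finSuccEquiv K N F := ⟨_, rfl⟩
    have hf0 : f ≠ 0 := by
      rw [hf]
      exact (map_ne_zero_iff _ (MvPolynomial.finSuccEquiv K N).injective).2 hF
    have hev : ∀ n, MvPolynomial.eval (x n) F =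
        ∑ k ∈ Finset.range (f.natDegree + 1),
          MvPolynomial.eval (fun i : Fin N => x n i.succ) (f.coeff k) * x n 0 ^ k := by
      intro n
      have h1 := MvPolynomial.eval_eq_eval_mv_eval' (fun i : Fin N => x n i.succ) (x n 0) F
      have h2 : (Fin.cons (x n 0) (fun i : Fin N => x n i.succ) : Fin (N + 1) → K) = x n :=
        Fin.cons_self_tail (x n)
      rw [h2, ← hf] at h1
      rw [h1, eval_map, eval₂_eq_sum_range]
    have hlead := ih (fun i => e i.succ) (fun i => he _)
      (fun i j hij => hanti (Fin.succ_lt_succ_iff.2 hij)) (fun i => G i.succ)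
      (fun i => hG _) (fun n i => x n i.succ) (fun i => hx _) (f.coeff f.natDegree)
      (leadingCoeff_ne_zero.2 hf0)
    rcases Nat.eq_zero_or_pos f.natDegree with hD | hD
    · filter_upwards [hlead] with n hn
      rw [hev n, hD]
      rw [hD] at hn
      simpa using hn
    · obtain ⟨D, hD'⟩ : ∃ D, f.natDegree = D + 1 := ⟨f.natDegree - 1, by omega⟩
      obtain ⟨C, hC, hroot⟩ := root_le (K := K) D
      choose E hE0 hE using fun k : ℕ => mv_bound (f.coeff k)
      have he0 : (2 : ℝ) ≤ e 0 := by exact_mod_cast he 0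
      have hlim : Tendsto (fun n => (C + (∑ k : Fin (D + 2), E k) *
          (1 + ∑ i : Fin N, logHeight₁ (x n i.succ))) / (e 0 : ℝ) ^ n) atTop (𝓝 0) := by
        have t0 : ∀ c : ℝ, Tendsto (fun n : ℕ => c / (e 0 : ℝ) ^ n) atTop (𝓝 0) := fun c =>
          (tendsto_const_nhds).div_atTop (tendsto_pow_atTop_atTop_of_one_lt (by linarith))
        have t1 : ∀ i : Fin N, Tendsto (fun n => logHeight₁ (x n i.succ) / (e 0 : ℝ) ^ n) atTop
            (𝓝 0) := by
          intro i
          have hlt : (e i.succ : ℝ) / e 0 < 1 := by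
            rw [div_lt_one (by linarith)]
            exact_mod_cast hanti (Fin.succ_pos i)
          have h7 := tendsto_pow_atTop_nhds_zero_of_lt_one
            (div_nonneg (Nat.cast_nonneg (e i.succ)) (by linarith : (0 : ℝ) ≤ e 0)) hlt
          have h8 := (hx i.succ).mul h7
          rw [mul_zero] at h8
          refine h8.congr fun n => ?_
          have hei : (e i.succ : ℝ) ^ n ≠ 0 := by
            have : (e i.succ : ℝ) ≠ 0 := by
              have := he i.succ
              positivity
            exact pow_ne_zero _ this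
          rw [div_pow]
          field_simp
        have t2 := (t0 C).add (((t0 1).add (tendsto_finsetSum Finset.univ fun i _ =>
          t1 i)).const_mul (∑ k : Fin (D + 2), E k))
        simp only [Finset.sum_const_zero, add_zero, mul_zero] at t2
        refine t2.congr fun n => ?_
        rw [← Finset.sum_div]
        ring
      have h9 : ∀ᶠ n in atTop, G 0 / 2 < logHeight₁ (x n 0) / (e 0 : ℝ) ^ n :=
        (hx 0).eventually_const_lt (by have := hG 0; linarith)
      have h10 := hlim.eventually_lt_const (show (0 : ℝ) < G 0 / 2 by have := hG 0; linarith)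
      filter_upwards [hlead, h9, h10] with n hn h11 h12 h0
      have h13 := hroot (fun k => MvPolynomial.eval (fun i : Fin N => x n i.succ) (f.coeff k))
        (x n 0) (by rw [← hD']; exact hn) (by
          rw [hev n, hD'] at h0
          exact h0)
      have h14 : ∑ k : Fin (D + 2), logHeight₁ (MvPolynomial.eval (fun i : Fin N => x n i.succ)
          (f.coeff k)) ≤ (∑ k : Fin (D + 2), E k) * (1 + ∑ i : Fin N, logHeight₁ (x n i.succ)) := by
        rw [Finset.sum_mul]
        exact Finset.sum_le_sum fun k _ => hE k _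
      have hpos : (0 : ℝ) < (e 0 : ℝ) ^ n := by positivity
      have h15 : logHeight₁ (x n 0) / (e 0 : ℝ) ^ n ≤ (C + (∑ k : Fin (D + 2), E k) *
          (1 + ∑ i : Fin N, logHeight₁ (x n i.succ))) / (e 0 : ℝ) ^ n :=
        div_le_div_of_nonneg_right (h13.trans (by linarith)) hpos.le
      linarith

end

/-- reduction of coefficients to the small field -/
lemma descend {L M : Type*} [Field L] [Field M] [Algebra L M] {N : ℕ}
    (F : MvPolynomial (Fin N) M) (hF : F ≠ 0) : ∃ F' : MvPolynomial (Fin N) L, F' ≠ 0 ∧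
      ∀ x : Fin N → L, MvPolynomial.eval (fun i => algebraMap L M (x i)) F = 0 →
        MvPolynomial.eval x F' = 0 := by
  classical
  obtain ⟨m, hm⟩ := MvPolynomial.ne_zero_iff.1 hF
  obtain ⟨φ, hφ⟩ : ∃ φ : Module.Dual L M, φ (F.coeff m) ≠ 0 := by
    by_contra hcon
    push Not at hcon
    exact hm ((Module.forall_dual_apply_eq_zero_iff L _).1 hcon)
  refine ⟨∑ s ∈ F.support, MvPolynomial.monomial s (φ (F.coeff s)), ?_, fun x hx => ?_⟩
  · intro h0
    have h1 := congrArg (MvPolynomial.coeff m) h0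
    rw [MvPolynomial.coeff_sum, MvPolynomial.coeff_zero] at h1
    rw [Finset.sum_eq_single m] at h1
    · rw [MvPolynomial.coeff_monomial, if_pos rfl] at h1
      exact hφ h1
    · intro s _ hs
      rw [MvPolynomial.coeff_monomial, if_neg hs]
    · intro h
      exact absurd (MvPolynomial.mem_support_iff.2 hm) h
  · rw [map_sum]
    have h2 := congrArg φ hx
    rw [MvPolynomial.eval_eq', map_sum, map_zero] at h2
    rw [← h2]
    refine Finset.sum_congr rfl fun s _ => ?_
    rw [MvPolynomial.eval_monomial, Finsupp.prod_fintype _ _ (fun i => pow_zero _)]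
    have h3 : F.coeff s * ∏ i, algebraMap L M (x i) ^ s i = (∏ i, x i ^ s i) • F.coeff s := by
      rw [Algebra.smul_def, map_prod, mul_comm]
      congr 1
      exact Finset.prod_congr rfl fun i _ => by rw [map_pow]
    rw [h3, map_smul, smul_eq_mul, mul_comm]

/-- the version for pairwise different growth -/
lemma eventually_ne' {K : Type*} [Field K] [AdmissibleAbsValues K] (N : ℕ) (e : Fin N → ℕ)
    (he : ∀ i, 2 ≤ e i) (hinj : Function.Injective e) (G : Fin N → ℝ) (hG : ∀ i, 0 < G i)
    (x : ℕ → Fin N → K)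
    (hx : ∀ i, Tendsto (fun n => logHeight₁ (x n i) / (e i : ℝ) ^ n) atTop (𝓝 (G i)))
    (F : MvPolynomial (Fin N) K) (hF : F ≠ 0) : ∀ᶠ n in atTop, MvPolynomial.eval (x n) F ≠ 0 := by
  obtain ⟨τ, hτ⟩ : ∃ τ : Equiv.Perm (Fin N), StrictAnti (e ∘ τ) := by
    refine ⟨Fin.revPerm.trans (Tuple.sort e), ?_⟩
    intro i j hij
    have h1 : Fin.rev j < Fin.rev i := Fin.rev_lt_rev.2 hij
    have h2 : e (Tuple.sort e (Fin.rev j)) ≤ e (Tuple.sort e (Fin.rev i)) :=
      Tuple.monotone_sort e h1.le
    refine lt_of_le_of_ne h2 fun h3 => ?_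
    exact h1.ne ((Tuple.sort e).injective (hinj h3))
  have h1 := eventually_ne N (e ∘ τ) (fun i => he _) hτ (G ∘ τ) (fun i => hG _)
    (fun n => x n ∘ τ) (fun i => hx (τ i)) (MvPolynomial.rename τ.symm F) (by
      intro h0
      exact hF ((MvPolynomial.rename_injective _ τ.symm.injective) (by rw [h0, map_zero])))
  filter_upwards [h1] with n hn
  rw [MvPolynomial.eval_rename] at hn
  have h2 : (x n ∘ τ) ∘ τ.symm = x n := by
    funext i
    simp
  rwa [h2] at hn

end Pool.Agent.X261.ZH
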